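import Pool.Graph.R_pool_sql_team_39128cda.H.MP_32433e.B

set_option autoImplicit false

namespace Pool.Agent.KS6_77.Gulko

open Set Filter Topology TopologicalSpace Cardinal
open Pool.Agent.H
open Pool.Agent.H.MP_e9bccb (LS)

/-- compact spaces of weight at most `𝔠` have a dense set of at most `𝔠` continuous functions -/
theorem dens {Y : Type} [TopologicalSpace Y] [CompactSpace Y] [T2Space Y] (B : Set (Set Y))
    (hB : IsTopologicalBasis B) (hc : #B ≤ continuum) :
    ∃ D : Set C(Y, ℝ), #D ≤ continuum ∧ Dense D := by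
  classical
  have key : ∀ p : B × B, ∃ u : C(Y, ℝ), closure p.1.1 ⊆ p.2.1 →
      EqOn u 0 (closure p.1.1) ∧ EqOn u 1 (p.2.1)ᶜ := by
    intro p
    by_cases h : closure p.1.1 ⊆ p.2.1
    · obtain ⟨u, h1, h2, -⟩ := exists_continuous_zero_one_of_isClosed
        (isClosed_closure (s := p.1.1)) (hB.isOpen p.2.2).isClosed_compl
        (disjoint_left.2 fun x hx hx2 => hx2 (h hx))
      exact ⟨u, fun _ => ⟨h1, h2⟩⟩
    · exact ⟨0, fun h' => absurd h' h⟩
  choose u hu using key
  let A := Algebra.adjoin ℝ (range u)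
  have hsep : A.SeparatesPoints := by
    intro y z hyz
    obtain ⟨V, hV, hyV, hVz⟩ := hB.exists_subset_of_mem_open (show y ∈ ({z}ᶜ : Set Y) from hyz)
      isClosed_singleton.isOpen_compl
    obtain ⟨U, hU, hyU, hUV⟩ := hB.exists_closure_subset ((hB.isOpen hV).mem_nhds hyV)
    obtain ⟨h1, h2⟩ := hu (⟨U, hU⟩, ⟨V, hV⟩) hUV
    refine ⟨u (⟨U, hU⟩, ⟨V, hV⟩), ⟨_, Algebra.subset_adjoin (mem_range_self _), rfl⟩, ?_⟩
    rw [h1 (subset_closure hyU), h2 (show z ∈ Vᶜ from fun h => hVz h rfl)]
    simp
  refine ⟨A, ?_, ?_⟩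
  · refine (Algebra.cardinalMk_adjoin_le ℝ (range u)).trans ?_
    refine sup_le (sup_le (by simp [Cardinal.mk_real]) ?_) aleph0_le_continuum
    refine mk_range_le.trans ?_
    rw [mk_prod, lift_id]
    exact (mul_le_mul' hc hc).trans (by simp)
  · have h := ContinuousMap.subalgebra_topologicalClosure_eq_top_of_separatesPoints A hsep
    intro x
    have : x ∈ A.topologicalClosure := by rw [h]; trivial
    exact this

/-- continuous images of weight at most `𝔠` of the space are Gul'ko compact -/
theorem image {Y : Type} [TopologicalSpace Y] [CompactSpace Y] [T2Space Y] (B : Set (Set Y))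
    (hB : IsTopologicalBasis B) (hc : #B ≤ continuum) (f : MP_32433e.X → Y)
    (hf : Continuous f) (hs : Function.Surjective f) : LS {g : Y → ℝ | Continuous g} := by
  classical
  obtain ⟨D, hD, hDd⟩ := dens B hB hc
  let T : C(Y, ℝ) → (MP_32433e.X → ℝ) := fun d x => d (f x)
  have hT : Continuous T := continuous_pi fun x => continuous_eval_const (f x)
  have h := MP_32433e.two (T '' D) (by
    rintro _ ⟨d, -, rfl⟩
    exact d.continuous.comp hf) (mk_image_le.trans hD)
  let s := Function.surjInv hs
  have hfs : ∀ y, f (s y) = y := Function.surjInv_eq hs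
  let Φ : (MP_32433e.X → ℝ) → (Y → ℝ) := fun φ y => φ (s y)
  have hΦ : Continuous Φ := continuous_pi fun y => continuous_apply (s y)
  have hq : IsQuotientMap f := hf.isClosedMap.isQuotientMap hf hs
  convert h.img hΦ.continuousOn using 1
  refine Subset.antisymm (fun g hg => ?_) ?_
  · let G : C(Y, ℝ) := ⟨g, hg⟩
    refine ⟨T G, ⟨?_, G.continuous.comp hf⟩, funext fun y => ?_⟩
    · exact image_closure_subset_closure_image hT ⟨G, hDd G, rfl⟩
    · show g (f (s y)) = g y
      rw [hfs]
  · rintro _ ⟨φ, ⟨hφ1, hφ2⟩, rfl⟩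
    have hfib : ∀ x, φ (s (f x)) = φ x := by
      intro x
      have hcl : IsClosed {ψ : MP_32433e.X → ℝ | ψ (s (f x)) = ψ x} :=
        isClosed_eq (continuous_apply _) (continuous_apply _)
      exact hcl.closure_subset_iff.2 (by
        rintro _ ⟨d, -, rfl⟩
        show d (f (s (f x))) = d (f x)
        rw [hfs]) hφ1
    show Continuous fun y => φ (s y)
    rw [hq.continuous_iff]
    have : (fun y => φ (s y)) ∘ f = φ := funext hfib
    rw [this]
    exact hφ2

theorem corson : ∃ e : MP_32433e.X → (MP_32433e.G → ℝ), IsEmbedding e ∧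
    ∀ S, {g | e S g ≠ 0}.Countable := by
  refine ⟨fun S g => MP_32433e.π g S, (Continuous.isClosedEmbedding
    (continuous_pi MP_32433e.cπ) fun S T h => Subtype.ext (funext fun g => ?_)).isEmbedding,
    fun S => ?_⟩
  · have := congrFun h g
    simp only [MP_32433e.π] at this
    cases h1 : S.1 g <;> cases h2 : T.1 g <;> simp_all
  · have h1 : {g | MP_32433e.π g S ≠ 0} ⊆ {g | S.1 g} := by
      intro g hg
      by_contra hc
      exact hg (if_neg hc)
    exact (countable_of_injective_of_countable_image (MP_32433e.inj S.2.choose_spec)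
      (to_countable _)).mono h1

end Pool.Agent.KS6_77.Gulko
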